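import Mathlib
import Pool.Agent.V11160.SPS.L
set_option autoImplicit false

/-!
# The maximal estimate for ball partial sums and sets of radii with bounded gaps

For `d ≥ 1` the estimate `‖S^* f‖₂ ≤ C ‖f‖₂` on `ℝ^d` is equivalent to the maximal estimate for the
spherical partial sums of `d`-fold Fourier series in which the radii run only through a given set
with bounded gaps, for instance through the integers.
-/

namespace Pool.Agent.Results.MP_ee701d_an.RadiiWithBoundedGaps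

open MeasureTheory Real FourierTransform
open scoped ENNReal RealInnerProductSpace NNReal SchwartzMap

/-- The ball partial sum `∫_{|ξ| ≤ R} g(ξ) e^{2πi x·ξ} dξ`; for `g = 𝓕 f` it is `S_R f (x)`. -/
noncomputable def ballSum {d : ℕ} (g : EuclideanSpace ℝ (Fin d) → ℂ) (R : ℝ)
    (x : EuclideanSpace ℝ (Fin d)) : ℂ :=
  ∫ ξ in Metric.closedBall (0 : EuclideanSpace ℝ (Fin d)) R,
    g ξ * Complex.exp (2 * π * Complex.I * ⟪x, ξ⟫)

/-- The estimate of the question: `‖S^* f‖₂² ≤ C ‖f‖₂²` for all Schwartz functions `f`. -/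
def MaximalEstimate (d : ℕ) : Prop :=
  ∃ C : ℝ≥0, ∀ f : 𝓢(EuclideanSpace ℝ (Fin d), ℂ),
    ∫⁻ x, (⨆ (R : ℝ) (_ : 0 < R), ‖ballSum (𝓕 (f : EuclideanSpace ℝ (Fin d) → ℂ)) R x‖ₑ ^ 2)
      ≤ C * ∫⁻ x, ‖f x‖ₑ ^ 2

/-- The lattice point with the coordinates `m i`. -/
noncomputable def point {d : ℕ} (m : Fin d → ℤ) : EuclideanSpace ℝ (Fin d) :=
  WithLp.toLp 2 fun i => (m i : ℝ)

/-- The cube of all `x` with `m i ≤ x i < m i + 1`. -/
def cube {d : ℕ} (m : Fin d → ℤ) : Set (EuclideanSpace ℝ (Fin d)) :=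
  {x | ∀ i, (m i : ℝ) ≤ x i ∧ x i < m i + 1}

/-- The spherical partial sum `∑_{|m| ≤ R} a(m) e^{2πi m·x}` of the trigonometric polynomial with
the coefficients `a(m)`, `m ∈ F`. -/
noncomputable def sphericalSum {d : ℕ} (F : Finset (Fin d → ℤ)) (a : (Fin d → ℤ) → ℂ) (R : ℝ)
    (x : EuclideanSpace ℝ (Fin d)) : ℂ :=
  ∑ m ∈ F, (if ‖point m‖ ≤ R then a m * Complex.exp (2 * π * Complex.I * ⟪x, point m⟫) else 0)

/-- The maximal estimate for spherical partial sums of `d`-fold Fourier series, with the radii in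
the set `𝓡`. -/
def PeriodicEstimate (d : ℕ) (𝓡 : Set ℝ) : Prop :=
  ∃ C : ℝ≥0, ∀ (F : Finset (Fin d → ℤ)) (a : (Fin d → ℤ) → ℂ),
    ∫⁻ x in cube (0 : Fin d → ℤ), (⨆ R ∈ 𝓡, ‖sphericalSum F a R x‖ₑ ^ 2)
      ≤ C * ∑ m ∈ F, ‖a m‖ₑ ^ 2

theorem result (n : ℕ) (𝓡 : Set ℝ) (L : ℝ)
    (hgap : ∀ R : ℝ, 0 ≤ R → ∃ ρ ∈ 𝓡, R ≤ ρ ∧ ρ ≤ R + L) :
    MaximalEstimate (n + 1) ↔ PeriodicEstimate (n + 1) 𝓡 :=
  V11160.SPS.main_equiv n ⌈L⌉₊ fun R hR => by
    obtain ⟨ρ, h1, h2, h3⟩ := hgap R hR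
    exact ⟨ρ, h1, h2, h3.trans (by linarith [Nat.le_ceil L])⟩

end Pool.Agent.Results.MP_ee701d_an.RadiiWithBoundedGaps
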