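import Mathlib
import Pool.Agent.V11160.SPS.F
set_option autoImplicit false

/-!
# Spherical partial sums: radii between integers, and random signs on annuli

Let `S_R g (x) = ∫_{|ξ| ≤ R} g(ξ) e^{2πi x·ξ} dξ` on `ℝ^d`, `d ≥ 1`; for `g = 𝓕 f` this is the ball
partial sum `S_R f (x)`.

1. For every `g ∈ L²` and every ball `B` of radius `r` the `L²(B)` norm of
   `sup_{R ≥ 0} |S_R g - S_{⌊R⌋} g|` is at most `C(r) ‖g‖₂`.
2. Put independent random signs on the annuli `k < |ξ| ≤ k + 1`.  Then the mean of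
   `∫_B sup_{R > 0} |S_R g_s|²` is at most `C(r) ‖g‖₂²`.
3. For almost every choice of the signs `S_R g_s` converges almost everywhere as `R → ∞`.
-/

namespace Pool.Agent.Results.MP_ee701d_an.RandomSignsOnAnnuli

open MeasureTheory Real Filter Topology
open scoped ENNReal RealInnerProductSpace NNReal

/-- The ball partial sum `∫_{|ξ| ≤ R} g(ξ) e^{2πi x·ξ} dξ`; for `g = 𝓕 f` it is `S_R f (x)`. -/
noncomputable def ballSum {d : ℕ} (g : EuclideanSpace ℝ (Fin d) → ℂ) (R : ℝ)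
    (x : EuclideanSpace ℝ (Fin d)) : ℂ :=
  ∫ ξ in Metric.closedBall (0 : EuclideanSpace ℝ (Fin d)) R,
    g ξ * Complex.exp (2 * π * Complex.I * ⟪x, ξ⟫)

/-- The sign `1` for `true`, `-1` for `false`. -/
noncomputable def sign (b : Bool) : ℂ := if b then 1 else -1

/-- `g` multiplied by the sign `s k` on the annulus `k < |ξ| ≤ k + 1`. -/
noncomputable def annulusSigns {d : ℕ} (s : ℕ → Bool) (g : EuclideanSpace ℝ (Fin d) → ℂ)
    (ξ : EuclideanSpace ℝ (Fin d)) : ℂ :=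
  sign (s (⌈‖ξ‖⌉₊ - 1)) * g ξ

/-- Independent fair coins. -/
noncomputable def coins : Measure (ℕ → Bool) :=
  Measure.infinitePi fun _ => (PMF.uniformOfFintype Bool).toMeasure

theorem result (n : ℕ) : ∃ C : ℝ → ℝ≥0, ∀ g : EuclideanSpace ℝ (Fin (n + 1)) → ℂ,
    Measurable g → MemLp g 2 volume →
      (∀ (z : EuclideanSpace ℝ (Fin (n + 1))) (r : ℝ),
        ∫⁻ x in Metric.closedBall z r,
          (⨆ (R : ℝ) (_ : 0 ≤ R), ‖ballSum g R x - ballSum g (⌊R⌋₊ : ℝ) x‖ₑ ^ 2)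
          ≤ C r * ∫⁻ ξ, ‖g ξ‖ₑ ^ 2) ∧
      (∀ (z : EuclideanSpace ℝ (Fin (n + 1))) (r : ℝ),
        ∫⁻ s, (∫⁻ x in Metric.closedBall z r,
          (⨆ (R : ℝ) (_ : 0 < R), ‖ballSum (annulusSigns s g) R x‖ₑ ^ 2)) ∂coins
          ≤ C r * ∫⁻ ξ, ‖g ξ‖ₑ ^ 2) ∧
      (∀ᵐ s ∂coins, ∀ᵐ x : EuclideanSpace ℝ (Fin (n + 1)),
        ∃ l : ℂ, Tendsto (fun R : ℝ => ballSum (annulusSigns s g) R x) atTop (𝓝 l)) := by
  refine ⟨fun r => (10 * V11160.SPS.KK n r).toNNReal, fun g hm hg => ⟨?_, ?_, ?_⟩⟩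
  · intro z r
    calc ∫⁻ x in Metric.closedBall z r,
          (⨆ (R : ℝ) (_ : 0 ≤ R), ‖ballSum g R x - ballSum g (⌊R⌋₊ : ℝ) x‖ₑ ^ 2)
        ≤ ∫⁻ x in Metric.closedBall z r, ⨆ m, V11160.SPS.HH g m x :=
          lintegral_mono fun x => iSup₂_le fun R hR => V11160.SPS.osc_le hg R hR x
      _ ≤ ENNReal.ofReal (V11160.SPS.KK n r) * ∫⁻ ξ, ‖g ξ‖ₑ ^ 2 :=
          V11160.SPS.lint_osc n hm hg z r
      _ ≤ ENNReal.ofReal (10 * V11160.SPS.KK n r) * ∫⁻ ξ, ‖g ξ‖ₑ ^ 2 := by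
          gcongr
          linarith [V11160.SPS.KK_nonneg n r]
  · intro z r
    refine le_trans ?_ (V11160.SPS.lint_UU n hm hg z r)
    refine lintegral_mono fun s => lintegral_mono fun x => iSup₂_le fun R hR => ?_
    exact V11160.SPS.le_UU hm hg s x R hR.le
  · exact V11160.SPS.ae_conv n hm hg

end Pool.Agent.Results.MP_ee701d_an.RandomSignsOnAnnuli
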