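import Mathlib
import Pool.Agent.V11160.SPS.N
set_option autoImplicit false

/-!
# Spherical partial sums: finite energy of the increments in the radius

Let `S_R g (x) = ∫_{|ξ| ≤ R} g(ξ) e^{2πi x·ξ} dξ` on `ℝ^d`, `d ≥ 1`; for `g = 𝓕 f` this is the ball
partial sum `S_R f (x)`.  For every `g ∈ L²`:

1. there is `E : ℝ^d → [0, ∞]` with `∫_B E ≤ C(r) ‖g‖₂²` for all balls `B` of radius `r`, such that
   `∑_j |S_{ρ (j+1)} g (x) - S_{ρ j} g (x)|² / (ρ (j+1) - ρ j) ≤ E x` for all `x` and all finite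
   increasing sequences of radii;
2. for almost every `x`, `|S_{R'} g (x) - S_R g (x)| ≤ ε √(R' - R)` for `R' ≥ R ≥ R₀(x, ε)`;
3. for almost every `x`, if `S_R g (x)` converges as `R → ∞` through some set of radii with bounded
   gaps, then it converges as `R → ∞`.
-/

namespace Pool.Agent.Results.MP_ee701d_an.SlowVariation

open MeasureTheory Real Filter Topology
open scoped ENNReal RealInnerProductSpace NNReal

/-- The ball partial sum `∫_{|ξ| ≤ R} g(ξ) e^{2πi x·ξ} dξ`; for `g = 𝓕 f` it is `S_R f (x)`. -/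
noncomputable def ballSum {d : ℕ} (g : EuclideanSpace ℝ (Fin d) → ℂ) (R : ℝ)
    (x : EuclideanSpace ℝ (Fin d)) : ℂ :=
  ∫ ξ in Metric.closedBall (0 : EuclideanSpace ℝ (Fin d)) R,
    g ξ * Complex.exp (2 * π * Complex.I * ⟪x, ξ⟫)

/-- `A` has bounded gaps: for some `L` every interval `[R, R + L]`, `R ≥ 0`, meets `A`. -/
def BoundedGaps (A : Set ℝ) : Prop :=
  ∃ L : ℝ, ∀ R : ℝ, 0 ≤ R → ∃ ρ ∈ A, R ≤ ρ ∧ ρ ≤ R + L

theorem result (n : ℕ) : ∃ C : ℝ → ℝ≥0, ∀ g : EuclideanSpace ℝ (Fin (n + 1)) → ℂ,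
    Measurable g → MemLp g 2 volume →
      (∃ E : EuclideanSpace ℝ (Fin (n + 1)) → ℝ≥0∞, Measurable E ∧
        (∀ (z : EuclideanSpace ℝ (Fin (n + 1))) (r : ℝ),
          ∫⁻ x in Metric.closedBall z r, E x ≤ C r * ∫⁻ ξ, ‖g ξ‖ₑ ^ 2) ∧
        ∀ (x : EuclideanSpace ℝ (Fin (n + 1))) (ρ : ℕ → ℝ), Monotone ρ → 0 ≤ ρ 0 → ∀ J : ℕ,
          ∑ j ∈ Finset.range J, ‖ballSum g (ρ (j + 1)) x - ballSum g (ρ j) x‖ₑ ^ 2
            / ENNReal.ofReal (ρ (j + 1) - ρ j) ≤ E x) ∧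
      (∀ᵐ x : EuclideanSpace ℝ (Fin (n + 1)), ∀ ε : ℝ, 0 < ε → ∃ R₀ : ℝ,
        ∀ R R' : ℝ, R₀ ≤ R → R ≤ R' → ‖ballSum g R' x - ballSum g R x‖ ≤ ε * √(R' - R)) ∧
      (∀ᵐ x : EuclideanSpace ℝ (Fin (n + 1)), ∀ A : Set ℝ, BoundedGaps A → ∀ l : ℂ,
        Tendsto (fun R : ℝ => ballSum g R x) (atTop ⊓ 𝓟 A) (𝓝 l) →
        Tendsto (fun R : ℝ => ballSum g R x) atTop (𝓝 l)) := by
  refine ⟨fun r => (V11160.SPS.KK n r).toNNReal, fun g hm hg => ?_⟩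
  have h2 : ∀ᵐ x : EuclideanSpace ℝ (Fin (n + 1)), ∀ ε : ℝ, 0 < ε → ∃ R₀ : ℝ,
      ∀ R R' : ℝ, R₀ ≤ R → R ≤ R' → ‖ballSum g R' x - ballSum g R x‖ ≤ ε * √(R' - R) := by
    filter_upwards [V11160.SPS.ae_tail n hm hg] with x hx ε hε
    obtain ⟨N, hN⟩ := hx ε hε
    exact ⟨N, fun R R' hR hRR => V11160.SPS.two_radii hg x N R R' hR hRR hε hN⟩
  refine ⟨⟨fun x => ∑' k : ℕ, V11160.SPS.EK g k x,
    Measurable.tsum fun k => V11160.SPS.EK_meas hm k, fun z r => V11160.SPS.lint_EK n hm hg z r,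
    fun x ρ hρ h0 J => V11160.SPS.part_real hg x 0 ρ hρ (by simpa using h0) J⟩, h2, ?_⟩
  filter_upwards [h2] with x hx A hA l hl
  obtain ⟨L, hL⟩ := hA
  rw [Metric.tendsto_atTop]
  intro ε hε
  have hL0 : 0 ≤ √L := Real.sqrt_nonneg L
  obtain ⟨R₁, hR₁⟩ := hx (ε / (2 * (√L + 1))) (by positivity)
  have h3 : ∀ᶠ R in atTop ⊓ 𝓟 A, dist (ballSum g R x) l < ε / 2 :=
    hl.eventually (Metric.ball_mem_nhds l (half_pos hε))
  rw [eventually_inf_principal, eventually_atTop] at h3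
  obtain ⟨R₂, hR₂⟩ := h3
  refine ⟨max (max R₁ R₂) 0, fun R hR => ?_⟩
  have hRa : R₁ ≤ R := (le_max_left _ _).trans ((le_max_left _ _).trans hR)
  have hRb : R₂ ≤ R := (le_max_right _ _).trans ((le_max_left _ _).trans hR)
  obtain ⟨ρ, hρA, hρ1, hρ2⟩ := hL R ((le_max_right _ _).trans hR)
  have h4 := hR₁ R ρ hRa hρ1
  have h5 := hR₂ ρ (hRb.trans hρ1) hρA
  have h6 : √(ρ - R) ≤ √L := Real.sqrt_le_sqrt (by linarith)
  have h7 : ε / (2 * (√L + 1)) * √(ρ - R) ≤ ε / 2 := by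
    calc ε / (2 * (√L + 1)) * √(ρ - R) ≤ ε / (2 * (√L + 1)) * (√L + 1) := by
          gcongr
          linarith
      _ = ε / 2 := by field_simp
  calc dist (ballSum g R x) l ≤ dist (ballSum g R x) (ballSum g ρ x) + dist (ballSum g ρ x) l :=
        dist_triangle _ _ _
    _ < ε := by
        rw [dist_comm, dist_eq_norm]
        linarith

end Pool.Agent.Results.MP_ee701d_an.SlowVariation
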